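import Pool.Agent.Work.MP_223b32_to.Defs
import Pool.Agent.Work.MP_223b32_tl_helper28.ALGT
import Pool.Agent.Work.MP_223b32_tl_helper64.ID

/-!
# ALGO: no relations for curves with slopes with odd denominators
-/

namespace Pool.Agent.Work.TO

open Finset Polynomial Pool.Agent.Work.MP_223b32_ag Pool.Agent.Work.MP_223b32_ag_56
open Pool.Agent.Work.TC Pool.Agent.Work.TL

/-- The parity of the sum of the coefficients of the last cofactor. -/
theorem psi0_parity {g' m g : ℕ} {η : ℤ} (hη : η = 1 ∨ η = -1) (hg' : Odd g')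
    (hdeg : (Psi0 g' m η).natDegree < g) : Odd (∑ i ∈ range g, (Psi0 g' m η).coeff i) := by
  have h1 : ∑ i ∈ range g, (Psi0 g' m η).coeff i = (Psi0 g' m η).eval 1 := by
    rw [eval_eq_sum_range' hdeg]
    simp
  have h2 : (Psi0 g' m η).eval 1 = ∑ k ∈ range g', η ^ k := by
    unfold Psi0
    rw [eval_finsetSum]
    simp
  have h3 : ∀ k, Odd (η ^ k) := by
    intro k
    rcases hη with rfl | rfl
    · rw [one_pow]; exact odd_one
    · exact Odd.pow (by decide)
  rw [h1, h2]
  have h4 : ∀ N : ℕ, (Odd (∑ k ∈ range N, η ^ k) ↔ Odd N) := by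
    intro N
    induction N with
    | zero => simp
    | succ N ih =>
      rw [sum_range_succ, Int.odd_add, ih, Nat.odd_add_one]
      have := h3 N
      rw [← Int.not_even_iff_odd] at this
      tauto
  exact (h4 g').2 hg'

/-- ALGO. -/
theorem algo (hID : Stmt_ID) (hDIV : Stmt_DIV) (hCYC : Stmt_CYC) (hBAL : Stmt_BAL)
    (hPSI0 : Stmt_PSI0) (n g q : ℕ) (ρ : AA →+* Om) (σ : AA ≃+* AA) (r : ℕ → ℕ) (ζ : Om)
    (al be w v' : ℕ → AA) (h : Orb n g (eta n) q ρ σ r ζ al be w v')
    (hn : n % 8 = 3 ∨ n % 8 = 5 ∨ n % 8 = 7)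
    (hex : ¬ ∃ d ∈ DD g (eta n), d ≠ d0 n ∧ Rel q al (Psi g (eta n) d))
    (v : AbsoluteValue ℂ ℝ) (h₀ : ℕ) (hv : v q < 1) (hh : Odd h₀)
    (hval : ∀ i < g, ∃ a : ℕ, v (al i) ^ h₀ = v q ^ a)
    (s : Multiset ℂ) (hs : ∀ z ∈ s, ∃ i < g, z = al i ∨ z = be i) (M : ℕ) (hM : 0 < M)
    (hsM : s.prod ^ (2 * M) = (q : ℂ) ^ (M * s.card)) :
    ∀ i < g, s.count (al i : ℂ) = s.count (be i : ℂ) := by
  classical
  have hq0 : (q : ℂ) ≠ 0 := by
    have : q ≠ 0 := h.odd_q.pos.ne'
    exact_mod_cast this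
  have hvq : 0 < v q := v.pos hq0
  have hη : eta n = 1 ∨ eta n = -1 := ALG.eta_cases n
  have hg : 1 ≤ g := by
    have h1 := h.prime.two_le
    have h2 := h.two_g
    omega
  have hn2 : n / 2 = g := by
    have := h.two_g
    omega
  obtain ⟨I, hI, hsat, hX⟩ := hID n g (eta n) q ρ σ r ζ al be w v' h
  obtain ⟨hc1, hc2, hc3⟩ := hCYC g (eta n) hg hη
  obtain ⟨hd0, m, hm1, hm2, hm3, hm4⟩ := hPSI0 n hn
  rw [hn2] at hd0 hm1 hm4
  -- the last cofactor is not a relation
  have hlast : Psi g (eta n) (d0 n) ∉ I := by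
    intro hmem
    obtain ⟨N, hN, hrel⟩ := (hI _).1 hmem
    rw [hm4] at hrel
    have hgp : 0 < oddPart n := hm2.pos
    have hdeg : (Psi0 (oddPart n) m (eta n)).natDegree < g := by
      rw [← hm4]
      have hdpos := ALG.pos_of_mem hd0
      have h1 := (hc1 (d0 n) hd0).2.2
      have h2 := Nat.totient_pos.2 hdpos
      have h3 := (hc1 (d0 n) hd0).2.1
      omega
    have hsub : (Psi0 (oddPart n) m (eta n)).support ⊆ range g := by
      intro i hi
      exact mem_range.2 (lt_of_le_of_lt (le_natDegree_of_mem_supp i hi) hdeg)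
    have hδ : ∀ i : ℕ, ∃ δ : ℤ, Odd δ ∧
        (i < g → v ((al i : ℂ) ^ 2 / q) ^ h₀ = v q ^ δ) := by
      intro i
      by_cases hi : i < g
      · obtain ⟨a, ha⟩ := hval i hi
        refine ⟨2 * a - h₀, ?_, fun _ => ?_⟩
        · obtain ⟨b, hb⟩ := hh
          exact ⟨a - b - 1, by rw [hb]; push_cast; ring⟩
        · rw [map_div₀, map_pow, div_pow, ← pow_mul, mul_comm 2 h₀, pow_mul, ha, ← pow_mul,
            zpow_sub₀ hvq.ne', zpow_natCast]
          congr 1
          rw [mul_comm a 2]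
          exact_mod_cast (zpow_natCast (v q) (2 * a)).symm
      · exact ⟨1, odd_one, fun h2 => absurd h2 hi⟩
    choose δ hδ1 hδ2 using hδ
    have hTh : v (Th q al (Psi0 (oddPart n) m (eta n))) ^ h₀ =
        v q ^ ∑ i ∈ range g, δ i * (Psi0 (oddPart n) m (eta n)).coeff i := by
      rw [ID.th_eq q al _ _ hsub, map_prod, ← prod_pow]
      have h1 : ∀ T : Finset ℕ, v q ^ ∑ i ∈ T, δ i * (Psi0 (oddPart n) m (eta n)).coeff i =
          ∏ i ∈ T, v q ^ (δ i * (Psi0 (oddPart n) m (eta n)).coeff i) := by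
        intro T
        induction T using Finset.induction_on with
        | empty => simp
        | insert a T ha ih => rw [sum_insert ha, prod_insert ha, zpow_add₀ hvq.ne', ih]
      rw [h1]
      refine prod_congr rfl fun i hi => ?_
      rw [map_zpow₀, ← zpow_natCast, ← zpow_mul, mul_comm _ (h₀ : ℤ), zpow_mul, zpow_natCast,
        hδ2 i (mem_range.1 hi), ← zpow_mul]
    have h1 : v (Th q al (Psi0 (oddPart n) m (eta n))) = 1 := by
      have h2 := congrArg v hrel
      rw [map_pow, map_one] at h2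
      exact (pow_eq_one_iff_of_nonneg (v.nonneg _) hN.ne').1 h2
    have h1' : v q ^ (∑ i ∈ range g, δ i * (Psi0 (oddPart n) m (eta n)).coeff i) = 1 := by
      rw [← hTh, h1, one_pow]
    have h2 : ∑ i ∈ range g, δ i * (Psi0 (oddPart n) m (eta n)).coeff i = 0 := by
      by_contra hne
      exact hne ((zpow_eq_one_iff_right₀ hvq.le hv.ne).1 h1')
    have h3 := psi0_parity hη hm2 hdeg
    have h4 : Even (∑ i ∈ range g, δ i * (Psi0 (oddPart n) m (eta n)).coeff i -
        ∑ i ∈ range g, (Psi0 (oddPart n) m (eta n)).coeff i) := by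
      rw [← sum_sub_distrib]
      refine Finset.sum_induction _ Even (fun a b ha hb => ha.add hb) (by simp) fun i _ => ?_
      obtain ⟨b, hb⟩ := hδ1 i
      rw [hb]
      exact ⟨b * (Psi0 (oddPart n) m (eta n)).coeff i, by ring⟩
    rw [h2, zero_sub, even_neg] at h4
    exact (Int.not_even_iff_odd.2 h3) h4
  push Not at hex
  have claim1 : ∀ P ∈ I, ∀ d ∈ DD g (eta n), d ≠ d0 n → cyclotomic d ℤ ∣ P := by
    intro P hP d hd hne
    by_contra hnot
    have h1 : cyclotomic d ℤ * Psi g (eta n) d ∈ I := by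
      rw [(hc1 d hd).1]
      exact hX
    have h2 := hDIV I hsat P (Psi g (eta n) d) d (ALG.pos_of_mem hd) h1 hP hnot
    exact hex d hd hne ((hI _).1 h2)
  have claim2 : ∀ P ∈ I, (X ^ g - C (eta n)) ∣ P := by
    intro P hP
    refine hc2 P fun d hd => ?_
    by_cases hne : d = d0 n
    · by_contra hnot
      have h1 : cyclotomic d ℤ * Psi g (eta n) d ∈ I := by
        rw [(hc1 d hd).1]
        exact hX
      have h2 := hDIV I hsat P (Psi g (eta n) d) d (ALG.pos_of_mem hd) h1 hP hnot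
      rw [hne] at h2
      exact hlast h2
    · exact claim1 P hP d hd hne
  exact hBAL n g (eta n) q ρ σ r ζ al be w v' h (fun P hP => claim2 P ((hI P).2 hP)) s hs M hM hsM

end Pool.Agent.Work.TO
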