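import Pool.Agent.Work.MP_223b32_tr.Defs

/-!
# Hyperelliptic curves over a fixed finite field: slopes with odd denominators

Notations as in `MP_223b32_tr/Defs.lean`: `F` is a finite field with `q` elements, `n = 2 g + 1` a prime
such that `2` and `-1` generate the group of units modulo `n`, `C` the curve `y ^ 2 = f(x)` of genus
`g = n / 2`, `f` monic irreducible of degree `n` over `F`; `Y` is a smooth projective variety over `F`,
`H = H^a(Y)` one of its cohomology groups (with complex coefficients) and `φ` its Frobenius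
endomorphism.
-/

namespace Pool.Agent.Work.TO

open Finset Polynomial TensorProduct Pool.Agent.Work.MP_223b32_ag Pool.Agent.Work.TC
open Pool.Agent.Work.T3 Pool.Agent.Work.TL Pool.Agent.Work.TR

/-- The slopes of the Newton polygon of the curve with the eigenvalues `α_i` have odd denominators:
with respect to an absolute value `v` of `ℂ` which extends the `p`-adic one, `v (α_i) = v(q) ^ (a / h)`
with `h` odd. For instance, this holds for all ordinary curves (`h = 1`). -/
def OddSlopes (q : ℕ) {M : ℕ} (α : Fin M → ℂ) : Prop :=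
  ∃ (v : AbsoluteValue ℂ ℝ) (h : ℕ), v q < 1 ∧ Odd h ∧ ∀ i, ∃ a : ℕ, v (α i) ^ h = v q ^ a

/-- The condition on the curve (`o` says that its slopes have odd denominators), `H = H^a(Y)` and `b`:
for an odd divisor `v > b` of the genus `g = n / 2` all Frobenius eigenvalues of `H` are `Tame q v`; or
`o` holds or `q` is not a square and `q ≠ n` modulo `8`, and all Frobenius eigenvalues of `H` are roots
of unity times `q ^ (a / 2)`. -/
def Allowed (q n : ℕ) (o : Prop) (a b : ℕ) {H : Type} [AddCommGroup H] [Module ℂ H]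
    (φ : Module.End ℂ H) : Prop :=
  (∃ v : ℕ, Odd v ∧ v ∣ n / 2 ∧ b < v ∧ ∀ z, φ.HasEigenvalue z → Tame q v z) ∨
  ((o ∨ ¬ IsSquare q ∧ n % 8 ≠ q % 8) ∧
    ∀ z, φ.HasEigenvalue z → ∃ M : ℕ, 0 < M ∧ z ^ (2 * M) = (q : ℂ) ^ (M * a))

/-- All powers of the Jacobian of `y ^ 2 = f(x)` are independent of `Y`, over all finite extensions of
`F` (`k` is the degree of the extension). `V` is the `H¹` of a power of the Jacobian, `Φ` its
(semisimple) Frobenius endomorphism, whose eigenvalues are those of the curve. -/
def TateY (F : Type) [Field F] [Fintype F] (n : ℕ) (f : F[X]) : Prop :=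
  ∃ α : Fin (n - 1) → ℂ, IsFrob F f α ∧
    ∀ (V : Type) [AddCommGroup V] [Module ℂ V] [Module.Finite ℂ V] (Φ : Module.End ℂ V),
      Φ.IsSemisimple → (∀ μ, Φ.HasEigenvalue μ → ∃ i, μ = α i) →
    ∀ (H : Type) [AddCommGroup H] [Module ℂ H] [Module.Finite ℂ H] (φ : Module.End ℂ H) (a b : ℕ),
      Allowed (Fintype.card F) n (OddSlopes (Fintype.card F) α) a b φ → ∀ k : ℕ, 0 < k →
        Indep (φ ^ k) (Φ ^ k) ((Fintype.card F : ℝ) ^ k) a b

/-- The monic irreducible polynomials of degree `n` without this property. -/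
def exceptional (F : Type) [Field F] [Fintype F] (n : ℕ) : Set F[X] :=
  {f | f ∈ irr F n ∧ ¬ TateY F n f}

end Pool.Agent.Work.TO
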