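import Pool.Agent.Work.MP_223b32_to.SUMO

/-!
# Final assembly
-/

namespace Pool.Agent.Work.TO

open Finset Polynomial Pool.Agent.Work.TC Pool.Agent.Work.TL

/-- The bound for the number of exceptions. -/
theorem main_boundO (hSUMT : Stmt_SUMO) (hEXT : Stmt_EXT) (hROOTS : Stmt_ROOTS) (F : Type) [Field F]
    [Fintype F] (hF : ringChar F ≠ 2) (n : ℕ) (hn : n.Prime)
    (hn2 : n ≠ 2) (hgen : Gen n) :
    ((exceptional F n).ncard : ℝ) ≤
      9 * (∑ e ∈ (n / 2).divisors.filter (fun e => Odd e ∧ 1 < e),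
        (2 : ℝ) ^ (-(e.totient : ℝ) / 2)) * ((irr F n).ncard : ℝ) := by
  obtain ⟨K, _, _, _, hK⟩ := hEXT F n hn.pos
  have h1 := hSUMT F K hF n hn hn2 hK hgen
  have h2 := hROOTS F K n hn hK 1 fun f => ¬ TateY F n (f 0)
  have h3 := hROOTS F K n hn hK 1 fun _ => True
  have h5 : Nat.card {a : Fin 1 → K // (∀ t, a t ∉ (algebraMap F K).range) ∧
      ¬ TateY F n ((fun t => minpoly F (a t)) 0)} =
      Nat.card {a : K // a ∉ (algebraMap F K).range ∧ BadY F n a} := by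
    refine Nat.card_congr ⟨fun a => ⟨a.1 0, a.2.1 0, a.2.2⟩, fun a => ⟨fun _ => a.1,
      fun _ => a.2.1, a.2.2⟩, fun a => ?_, fun a => rfl⟩
    refine Subtype.ext (funext fun t => ?_)
    rw [Subsingleton.elim t 0]
  have h4 : {f : Fin 1 → F[X] | (∀ t, f t ∈ irr F n) ∧ ¬ TateY F n (f 0)}.ncard =
      (exceptional F n).ncard := by
    rw [← Nat.card_coe_set_eq, ← Nat.card_coe_set_eq]
    refine Nat.card_congr ⟨fun f => ⟨f.1 0, f.2.1 0, f.2.2⟩, fun f => ⟨fun _ => f.1, fun _ => f.2.1,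
      f.2.2⟩, fun f => ?_, fun f => rfl⟩
    refine Subtype.ext (funext fun t => ?_)
    rw [Subsingleton.elim t 0]
  have h6 : Nat.card {a : Fin 1 → K // (∀ t, a t ∉ (algebraMap F K).range) ∧ True} =
      Nat.card {a : K // a ∉ (algebraMap F K).range} := by
    refine Nat.card_congr ⟨fun a => ⟨a.1 0, a.2.1 0⟩, fun a => ⟨fun _ => a.1, fun _ => a.2, trivial⟩,
      fun a => ?_, fun a => rfl⟩
    refine Subtype.ext (funext fun t => ?_)
    rw [Subsingleton.elim t 0]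
  have h7 : {f : Fin 1 → F[X] | (∀ t, f t ∈ irr F n) ∧ True}.ncard = (irr F n).ncard := by
    rw [← Nat.card_coe_set_eq, ← Nat.card_coe_set_eq]
    refine Nat.card_congr ⟨fun f => ⟨f.1 0, f.2.1 0⟩, fun f => ⟨fun _ => f.1, fun _ => f.2, trivial⟩,
      fun f => ?_, fun f => rfl⟩
    refine Subtype.ext (funext fun t => ?_)
    rw [Subsingleton.elim t 0]
  rw [h6, h7, pow_one] at h3
  rw [h5, h4, pow_one] at h2
  rw [← h2, ← h3] at h1
  push_cast at h1
  have hn0 : (0 : ℝ) < (n : ℝ) := by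
    have := hn.pos
    positivity
  refine le_of_mul_le_mul_left (h1.trans (le_of_eq ?_)) hn0
  ring

end Pool.Agent.Work.TO
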